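import Pool.Agent.Helper2.Ch.Defs

/-!
# Rigid motions, infinitesimal rigid motions
-/

namespace UnlockChains

open Set Filter Topology
open scoped RealInnerProductSpace

/-- orthogonal, orientation preserving maps near an infinitesimal rotation -/
theorem exists_rotation (A : E3 →ₗ[ℝ] E3) (hA : ∀ x, ⟪A x, x⟫ = 0) :
    ∃ R : ℝ → (E3 ≃ₗᵢ[ℝ] E3), (∀ r, LinearMap.det (R r).toLinearEquiv.toLinearMap = 1) ∧
      ∀ x : E3, Tendsto (fun r : ℝ => r⁻¹ • (R r x - x - r • A x)) (𝓝[>] 0) (𝓝 0) := by
  have hskew : ∀ x y, ⟪A x, y⟫ = - ⟪x, A y⟫ := by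
    intro x y
    have h := hA (x + y)
    rw [map_add, inner_add_left, inner_add_right, inner_add_right, hA x, hA y] at h
    rw [real_inner_comm (A y) x]
    linarith
  letI : NormedAlgebra ℚ (E3 →L[ℝ] E3) := NormedAlgebra.restrictScalars ℚ ℝ _
  set A' : E3 →L[ℝ] E3 := LinearMap.toContinuousLinearMap A with hA'
  have hstar : ∀ r : ℝ, star (r • A') = - (r • A') := by
    intro r
    rw [ContinuousLinearMap.star_eq_adjoint]
    symm
    rw [ContinuousLinearMap.eq_adjoint_iff]
    intro x y
    simp only [neg_apply, smul_apply, hA',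
      LinearMap.coe_toContinuousLinearMap', inner_neg_left, real_inner_smul_left,
      real_inner_smul_right, hskew x y]
    ring
  have hmem : ∀ r : ℝ, NormedSpace.exp (r • A') ∈ unitary (E3 →L[ℝ] E3) := by
    intro r
    apply NormedSpace.exp_mem_unitary_of_mem_skewAdjoint
    rw [skewAdjoint.mem_iff]
    exact hstar r
  have hsq : ∀ r : ℝ, NormedSpace.exp (r • A') =
      NormedSpace.exp ((r / 2) • A') * NormedSpace.exp ((r / 2) • A') := by
    intro r
    have h2 : (r / 2) • A' + (r / 2) • A' = r • A' := by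
      have h3 := (add_smul (r/2) (r/2) A').symm
      rw [add_halves] at h3
      exact h3
    rw [← NormedSpace.exp_add_of_commute (Commute.refl _), h2]
  set R : ℝ → (E3 ≃ₗᵢ[ℝ] E3) := fun r => Unitary.linearIsometryEquiv ⟨_, hmem r⟩ with hR
  have hRap : ∀ r x, R r x = NormedSpace.exp (r • A') x := by
    intro r x; rfl
  refine ⟨R, ?_, ?_⟩
  · intro r
    have hcomp : (R r).toLinearEquiv.toLinearMap =
        (R (r/2)).toLinearEquiv.toLinearMap ∘ₗ (R (r/2)).toLinearEquiv.toLinearMap := by
      ext x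
      simp only [LinearMap.coe_comp, LinearEquiv.coe_coe, Function.comp_apply,
        LinearIsometryEquiv.coe_toLinearEquiv, hRap, hsq r]
      rfl
    have habs : |LinearMap.det (R r).toLinearEquiv.toLinearMap| = 1 := by
      rw [← LinearMap.normDet_eq_abs_det]
      exact (R r).toLinearIsometry.normDet_eq_one
    have hnn : 0 ≤ LinearMap.det (R r).toLinearEquiv.toLinearMap := by
      rw [hcomp, LinearMap.det_comp]
      exact mul_self_nonneg _
    rwa [abs_of_nonneg hnn] at habs
  · intro x
    have hd : HasDerivAt (fun u : ℝ => NormedSpace.exp (u • A')) (NormedSpace.exp ((0:ℝ) • A') * A') 0 :=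
      hasDerivAt_exp_smul_const A' (0:ℝ)
    have h00 : (0:ℝ) • A' = 0 := by ext x; simp
    rw [h00, NormedSpace.exp_zero, one_mul] at hd
    have hd2 : HasDerivAt (fun u : ℝ => NormedSpace.exp (u • A') x) (A' x) 0 := by
      have := ((ContinuousLinearMap.apply ℝ E3 x).hasFDerivAt (x := NormedSpace.exp ((0:ℝ) • A'))).comp_hasDerivAt (0:ℝ) hd
      exact this
    have hd3 := hd2.tendsto_slope_zero_right
    have : Tendsto (fun r : ℝ => r⁻¹ • (R r x - x) - A x) (𝓝[>] 0) (𝓝 (A x - A x)) := by
      refine Tendsto.sub ?_ tendsto_const_nhds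
      refine hd3.congr' ?_
      filter_upwards with r
      rw [h00, NormedSpace.exp_zero, zero_add, hRap]; rfl
    rw [sub_self] at this
    refine this.congr' ?_
    filter_upwards [self_mem_nhdsWithin] with r hr
    rw [mem_Ioi] at hr
    rw [smul_sub r⁻¹ (R r x - x), smul_smul, inv_mul_cancel₀ hr.ne', one_smul]

end UnlockChains
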