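import Pool.Agent.Helper2.Ch.Compact1

/-!
# Compactness: first order rigidity implies that small perturbations are locked
-/

namespace UnlockChains

open Set Filter Topology
open scoped RealInnerProductSpace

/-- the determinant of three vectors -/
noncomputable def det3 (a b c : E3) : ℝ :=
  a 0 * (b 1 * c 2 - b 2 * c 1) - a 1 * (b 0 * c 2 - b 2 * c 0) + a 2 * (b 0 * c 1 - b 1 * c 0)

theorem det3_eq (a b c : E3) :
    det3 a b c = (EuclideanSpace.basisFun (Fin 3) ℝ).toBasis.det ![a, b, c] := by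
  rw [Module.Basis.det_apply, Matrix.det_fin_three]
  simp only [Module.Basis.toMatrix_apply, OrthonormalBasis.coe_toBasis_repr_apply,
    EuclideanSpace.basisFun_repr, det3]
  simp
  ring

theorem det3_map (R : E3 →ₗ[ℝ] E3) (a b c : E3) :
    det3 (R a) (R b) (R c) = LinearMap.det R * det3 a b c := by
  rw [det3_eq, det3_eq, ← Module.Basis.det_comp]
  congr 1
  ext i
  fin_cases i <;> rfl

theorem det3_smul (a b c : E3) (r : ℝ) : det3 a b (r • c) = r * det3 a b c := by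
  unfold det3; simp only [PiLp.smul_apply, smul_eq_mul]; ring

theorem det3_zero (a b : E3) : det3 a b 0 = 0 := by
  unfold det3; simp

theorem continuous_det3 : Continuous fun p : E3 × E3 × E3 => det3 p.1 p.2.1 p.2.2 := by
  unfold det3; fun_prop

theorem exists_of_det3_eq_zero {a b c : E3} (h : det3 a b c = 0) :
    ∃ w : Fin 3 → ℝ, ‖w‖ = 1 ∧ w 0 • a + w 1 • b + w 2 • c = 0 := by
  have h1 : (Matrix.of ![(a : Fin 3 → ℝ), b, c]).det = 0 := by
    rw [Matrix.det_fin_three, ← h]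
    unfold det3
    simp
    ring
  obtain ⟨w, hw0, hw⟩ := Matrix.exists_vecMul_eq_zero_iff.2 h1
  have hn : ‖w‖ ≠ 0 := norm_ne_zero_iff.2 hw0
  refine ⟨‖w‖⁻¹ • w, by rw [norm_smul, norm_inv, norm_norm, inv_mul_cancel₀ hn], ?_⟩
  have h2 : w 0 • a + w 1 • b + w 2 • c = 0 := by
    ext k
    have := congrFun hw k
    simp [Matrix.vecMul, dotProduct, Fin.sum_univ_three] at this
    simpa using this
  have : (‖w‖⁻¹ • w) 0 • a + (‖w‖⁻¹ • w) 1 • b + (‖w‖⁻¹ • w) 2 • c =
      ‖w‖⁻¹ • (w 0 • a + w 1 • b + w 2 • c) := by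
    simp only [Pi.smul_apply, smul_eq_mul, mul_smul, smul_add]
  rw [this, h2, smul_zero]

variable {ι : Type*}

/-- direction of a rod -/
def rodDir (X : ι → Fin 4 → E3) (c : ι) (i : Fin 3) : E3 := X c i.succ - X c i.castSucc

/-- point on a rod -/
noncomputable def rodPt (X : ι → Fin 4 → E3) (c : ι) (i : Fin 3) (s : ℝ) : E3 :=
  X c i.castSucc + s • rodDir X c i

/-- the rod -/
def rod (X : ι → Fin 4 → E3) (c : ι) (i : Fin 3) : Set E3 :=
  segment ℝ (X c i.castSucc) (X c i.succ)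

theorem rodPt_mem {X : ι → Fin 4 → E3} {c : ι} {i : Fin 3} {s : ℝ} (h0 : 0 ≤ s) (h1 : s ≤ 1) :
    rodPt X c i s ∈ rod X c i := by
  unfold rod; rw [segment_eq_image']; exact ⟨s, ⟨h0, h1⟩, rfl⟩

/-- crossing data: rods `(c, i)` and `(c', i')`, parameters `s`, `s'` of the common point, and a
linear functional vanishing on both directions -/
structure Crossing (ι : Type*) where
  c : ι
  i : Fin 3
  c' : ι
  i' : Fin 3
  s : ℝ
  s' : ℝ
  κ : ℝ
  φ : E3 →ₗ[ℝ] ℝ

/-- the crossing data `j` is a crossing of the macroscopic configuration `P` -/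
structure IsCrossing (P : ι → Fin 4 → E3) (j : Crossing ι) : Prop where
  s0 : 0 < j.s
  s1 : j.s < 1
  s0' : 0 < j.s'
  s1' : j.s' < 1
  pt : rodPt P j.c j.i j.s = rodPt P j.c' j.i' j.s'
  ne : j.κ ≠ 0
  det : ∀ w, det3 (rodDir P j.c j.i) (rodDir P j.c' j.i') w = j.κ * j.φ w

/-- displacement difference at the crossing -/
noncomputable def Crossing.gap (j : Crossing ι) (X : ι → Fin 4 → E3) : E3 :=
  rodPt X j.c j.i j.s - rodPt X j.c' j.i' j.s'

/-- oriented volume -/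
noncomputable def Crossing.vol (j : Crossing ι) (X : ι → Fin 4 → E3) : ℝ :=
  j.κ * det3 (rodDir X j.c j.i) (rodDir X j.c' j.i') (j.gap X)

theorem rodDir_add_smul (P v : ι → Fin 4 → E3) (r : ℝ) (c : ι) (i : Fin 3) :
    rodDir (P + r • v) c i = rodDir P c i + r • rodDir v c i := by
  simp only [rodDir, Pi.add_apply, Pi.smul_apply, smul_sub]; abel

theorem rodPt_add_smul (P v : ι → Fin 4 → E3) (r : ℝ) (c : ι) (i : Fin 3) (s : ℝ) :
    rodPt (P + r • v) c i s = rodPt P c i s + r • rodPt v c i s := by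
  simp only [rodPt, rodDir_add_smul, Pi.add_apply, Pi.smul_apply, smul_add, smul_smul]
  rw [mul_comm r s]; abel

theorem gap_add_smul {P : ι → Fin 4 → E3} {j : Crossing ι} (hj : IsCrossing P j)
    (v : ι → Fin 4 → E3) (r : ℝ) : j.gap (P + r • v) = r • j.gap v := by
  simp only [Crossing.gap, rodPt_add_smul, hj.pt, smul_sub]; abel

theorem vol_add_smul {P : ι → Fin 4 → E3} {j : Crossing ι} (hj : IsCrossing P j)
    (v : ι → Fin 4 → E3) (r : ℝ) : j.vol (P + r • v) =
      r * (j.κ * det3 (rodDir (P + r • v) j.c j.i) (rodDir (P + r • v) j.c' j.i') (j.gap v)) := by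
  simp only [Crossing.vol, gap_add_smul hj, det3_smul]; ring

theorem continuous_rodDir (c : ι) (i : Fin 3) :
    Continuous fun X : ι → Fin 4 → E3 => rodDir X c i := by
  unfold rodDir; fun_prop

theorem continuous_rodPt (c : ι) (i : Fin 3) (s : ℝ) :
    Continuous fun X : ι → Fin 4 → E3 => rodPt X c i s := by
  unfold rodPt rodDir; fun_prop

theorem continuous_gap (j : Crossing ι) : Continuous fun X : ι → Fin 4 → E3 => j.gap X :=
  (continuous_rodPt _ _ _).sub (continuous_rodPt _ _ _)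

theorem continuous_vol (j : Crossing ι) : Continuous fun X : ι → Fin 4 → E3 => j.vol X := by
  unfold Crossing.vol
  exact continuous_const.mul (continuous_det3.comp
    ((continuous_rodDir _ _).prodMk ((continuous_rodDir _ _).prodMk (continuous_gap j))))

/-- action of a rigid motion -/
noncomputable def act (R : E3 ≃ₗᵢ[ℝ] E3) (b : E3) (X : ι → Fin 4 → E3) : ι → Fin 4 → E3 :=
  fun c k => R (X c k) + b

theorem rodDir_act (R : E3 ≃ₗᵢ[ℝ] E3) (b : E3) (X : ι → Fin 4 → E3) (c : ι) (i : Fin 3) :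
    rodDir (act R b X) c i = R (rodDir X c i) := by
  simp [rodDir, act]

theorem rodPt_act (R : E3 ≃ₗᵢ[ℝ] E3) (b : E3) (X : ι → Fin 4 → E3) (c : ι) (i : Fin 3) (s : ℝ) :
    rodPt (act R b X) c i s = R (rodPt X c i s) + b := by
  simp only [rodPt, rodDir_act, act, map_add, map_smul]; abel

theorem gap_act (R : E3 ≃ₗᵢ[ℝ] E3) (b : E3) (X : ι → Fin 4 → E3) (j : Crossing ι) :
    j.gap (act R b X) = R (j.gap X) := by
  simp only [Crossing.gap, rodPt_act, map_sub]; abel

theorem vol_act {R : E3 ≃ₗᵢ[ℝ] E3} (hR : LinearMap.det R.toLinearEquiv.toLinearMap = 1) (b : E3)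
    (X : ι → Fin 4 → E3) (j : Crossing ι) : j.vol (act R b X) = j.vol X := by
  have h := det3_map R.toLinearEquiv.toLinearMap (rodDir X j.c j.i) (rodDir X j.c' j.i') (j.gap X)
  rw [hR, one_mul] at h
  simp only [Crossing.vol, rodDir_act, gap_act]
  rw [← h]; rfl

variable [Fintype ι]

theorem dist_act (R : E3 ≃ₗᵢ[ℝ] E3) (b : E3) (X Y : ι → Fin 4 → E3) :
    dist (act R b X) (act R b Y) = dist X Y := by
  simp only [dist_pi_def, nndist_pi_def, act, nndist_add_right, R.isometry.nndist_eq]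

/-- the orbit -/
def orbit (P : ι → Fin 4 → E3) : Set (ι → Fin 4 → E3) :=
  {Y | ∃ (R : E3 ≃ₗᵢ[ℝ] E3) (b : E3), LinearMap.det R.toLinearEquiv.toLinearMap = 1 ∧ Y = act R b P}

theorem act_mem_orbit {P : ι → Fin 4 → E3} {R : E3 ≃ₗᵢ[ℝ] E3} {b : E3}
    (hR : LinearMap.det R.toLinearEquiv.toLinearMap = 1) : act R b P ∈ orbit P := ⟨R, b, hR, rfl⟩

theorem act_mem_orbit' {P Y : ι → Fin 4 → E3} {R : E3 ≃ₗᵢ[ℝ] E3} {b : E3}
    (hR : LinearMap.det R.toLinearEquiv.toLinearMap = 1) (hY : Y ∈ orbit P) :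
    act R b Y ∈ orbit P := by
  obtain ⟨R', b', hR', rfl⟩ := hY
  refine ⟨R'.trans R, R b' + b, ?_, ?_⟩
  · have : (R'.trans R).toLinearEquiv.toLinearMap =
        R.toLinearEquiv.toLinearMap ∘ₗ R'.toLinearEquiv.toLinearMap := by ext x; rfl
    rw [this, LinearMap.det_comp, hR, hR', mul_one]
  · funext c k
    simp [act, add_assoc]

theorem self_mem_orbit (P : ι → Fin 4 → E3) : P ∈ orbit P := by
  refine ⟨LinearIsometryEquiv.refl ℝ E3, 0, ?_, ?_⟩
  · exact LinearMap.det_id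
  · funext c k; simp [act]

/-- points near the orbit are rigid images of points near `P` -/
theorem exists_near {P Y : ι → Fin 4 → E3} {r : ℝ} (h : Metric.infDist Y (orbit P) < r) :
    ∃ (R : E3 ≃ₗᵢ[ℝ] E3) (b : E3) (Z : ι → Fin 4 → E3),
      LinearMap.det R.toLinearEquiv.toLinearMap = 1 ∧ Y = act R b Z ∧ dist Z P < r := by
  obtain ⟨O, ⟨R, b, hR, rfl⟩, hd⟩ := (Metric.infDist_lt_iff ⟨P, self_mem_orbit P⟩).1 h
  have hY : Y = act R b (fun c k => R.symm (Y c k - b)) := by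
    funext c k; simp [act]
  refine ⟨R, b, _, hR, hY, ?_⟩
  rw [hY, dist_act] at hd
  exact hd

variable {K : Type*} [Finite K]

omit [Fintype ι] in
theorem norm_rodDir_act (R : E3 ≃ₗᵢ[ℝ] E3) (b : E3) (X : ι → Fin 4 → E3) (c : ι) (i : Fin 3) :
    ‖rodDir (act R b X) c i‖ = ‖rodDir X c i‖ := by
  rw [rodDir_act, R.norm_map]

theorem limit_lemma (P : ι → Fin 4 → E3) (J : K → Crossing ι) (hJ : ∀ j, IsCrossing P (J j))
    (hFOR : ∀ v : ι → Fin 4 → E3, (∀ c i, ⟪rodDir P c i, rodDir v c i⟫ = 0) →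
      (∀ j, (J j).φ ((J j).gap v) ≤ 0) →
      ∃ (A : E3 →ₗ[ℝ] E3) (b : E3), (∀ x, ⟪A x, x⟫ = 0) ∧ ∀ c k, v c k = A (P c k) + b)
    (C : ℝ) : ∃ r0 > (0:ℝ), ∀ r, 0 < r → r < r0 → ∀ Y : ι → Fin 4 → E3,
      Metric.infDist Y (orbit P) = r →
      (∀ c i, |‖rodDir Y c i‖ ^ 2 - ‖rodDir P c i‖ ^ 2| ≤ C * r ^ 2) →
      (∀ j, (J j).vol Y ≤ 0) → False := by
  by_contra hcon
  push Not at hcon
  have h1 : ∀ k : ℕ, ∃ r : ℝ, 0 < r ∧ r < 1 / ((k:ℝ) + 1) ∧ ∃ (R : E3 ≃ₗᵢ[ℝ] E3) (b : E3)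
      (v : ι → Fin 4 → E3), LinearMap.det R.toLinearEquiv.toLinearMap = 1 ∧
      Metric.infDist (act R b (P + r • v)) (orbit P) = r ∧
      (∀ c i, |‖rodDir (P + r • v) c i‖ ^ 2 - ‖rodDir P c i‖ ^ 2| ≤ C * r ^ 2) ∧
      (∀ j, (J j).vol (P + r • v) ≤ 0) ∧ ‖v‖ ≤ 2 := by
    intro k
    obtain ⟨r, hr0, hr1, Y, hY, hlen, hvol, -⟩ := hcon (1 / ((k:ℝ) + 1)) (by positivity)
    obtain ⟨R, b, Z, hR, rfl, hZ⟩ := exists_near (P := P) (Y := Y) (r := r + r ^ 2)
      (by rw [hY]; nlinarith [sq_pos_of_pos hr0])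
    have hZv : Z = P + r • (r⁻¹ • (Z - P)) := by
      rw [smul_smul, mul_inv_cancel₀ hr0.ne', one_smul]; abel
    refine ⟨r, hr0, hr1, R, b, r⁻¹ • (Z - P), hR, ?_, ?_, ?_, ?_⟩
    · rw [← hZv]; exact hY
    · intro c i
      rw [← hZv, ← norm_rodDir_act R b]; exact hlen c i
    · intro j
      rw [← hZv, ← vol_act hR b]; exact hvol j
    · rw [norm_smul, norm_inv, Real.norm_of_nonneg hr0.le, ← dist_eq_norm]
      have hr2 : r < 1 := hr1.trans_le (by
        rw [div_le_one (by positivity)]; linarith [Nat.cast_nonneg (α := ℝ) k])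
      rw [inv_mul_le_iff₀ hr0]
      nlinarith
  choose r hr0 hr1 R b v hR hd hlen hvol hv using h1
  obtain ⟨w, -, φ, hφ, hw⟩ := tendsto_subseq_of_bounded
    (Metric.isBounded_closedBall (x := (0 : ι → Fin 4 → E3)) (r := 2)) (x := v)
    (fun k => by rw [mem_closedBall_zero_iff]; exact hv k)
  have hrt : Tendsto r atTop (𝓝 0) := by
    refine squeeze_zero (fun k => (hr0 k).le) (fun k => (hr1 k).le) ?_
    exact tendsto_one_div_add_atTop_nhds_zero_nat
  have hrt' : Tendsto (fun k => r (φ k)) atTop (𝓝 0) := hrt.comp hφ.tendsto_atTop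
  have hzt : Tendsto (fun k => P + r (φ k) • v (φ k)) atTop (𝓝 P) := by
    have := (tendsto_const_nhds (x := P)).add (hrt'.smul hw)
    simpa using this
  have hL : ∀ c i, ⟪rodDir P c i, rodDir w c i⟫ = 0 := by
    intro c i
    have hlim : Tendsto (fun k => 2 * ⟪rodDir P c i, rodDir (v (φ k)) c i⟫) atTop
        (𝓝 (2 * ⟪rodDir P c i, rodDir w c i⟫)) := by
      refine Tendsto.const_mul _ ?_
      exact Tendsto.inner tendsto_const_nhds (((continuous_rodDir c i).tendsto w).comp hw)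
    have hzero : Tendsto (fun k => 2 * ⟪rodDir P c i, rodDir (v (φ k)) c i⟫) atTop (𝓝 0) := by
      have hb : Tendsto (fun k => (C + ‖rodDir (v (φ k)) c i‖ ^ 2) * r (φ k)) atTop (𝓝 0) := by
        have h1 : Tendsto (fun k => C + ‖rodDir (v (φ k)) c i‖ ^ 2) atTop
            (𝓝 (C + ‖rodDir w c i‖ ^ 2)) :=
          (((((continuous_rodDir c i).tendsto w).comp hw).norm).pow 2).const_add C
        have := h1.mul hrt'
        simpa using this
      refine squeeze_zero_norm (fun k => ?_) hb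
      have h2 := hlen (φ k) c i
      have h3 := hr0 (φ k)
      set ρ := r (φ k)
      rw [rodDir_add_smul, norm_add_sq_real, real_inner_smul_right, norm_smul,
        Real.norm_of_nonneg h3.le] at h2
      rw [Real.norm_eq_abs]
      have h4 : ρ * (2 * ⟪rodDir P c i, rodDir (v (φ k)) c i⟫) =
        (‖rodDir P c i‖ ^ 2 + 2 * (ρ * ⟪rodDir P c i, rodDir (v (φ k)) c i⟫) +
          (ρ * ‖rodDir (v (φ k)) c i‖) ^ 2 - ‖rodDir P c i‖ ^ 2) -
            ρ ^ 2 * ‖rodDir (v (φ k)) c i‖ ^ 2 := by ring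
      have h5 : |ρ * (2 * ⟪rodDir P c i, rodDir (v (φ k)) c i⟫)| ≤
          C * ρ ^ 2 + ρ ^ 2 * ‖rodDir (v (φ k)) c i‖ ^ 2 := by
        rw [h4]
        refine (abs_sub _ _).trans ?_
        gcongr
        rw [abs_of_nonneg (by positivity)]
      rw [abs_mul, abs_of_pos h3] at h5
      have h6 : ρ * |2 * ⟪rodDir P c i, rodDir (v (φ k)) c i⟫| ≤
          ρ * ((C + ‖rodDir (v (φ k)) c i‖ ^ 2) * ρ) := by
        calc _ ≤ _ := h5
          _ = _ := by ring
      exact le_of_mul_le_mul_left h6 h3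
    have := tendsto_nhds_unique hlim hzero
    linarith
  have hV : ∀ j, (J j).φ ((J j).gap w) ≤ 0 := by
    intro j
    have hlim : Tendsto (fun k => (J j).κ * det3 (rodDir (P + r (φ k) • v (φ k)) (J j).c (J j).i)
        (rodDir (P + r (φ k) • v (φ k)) (J j).c' (J j).i') ((J j).gap (v (φ k)))) atTop
        (𝓝 ((J j).κ * det3 (rodDir P (J j).c (J j).i) (rodDir P (J j).c' (J j).i')
          ((J j).gap w))) := by
      refine Tendsto.const_mul _ ?_
      have h1 := ((continuous_rodDir (J j).c (J j).i).tendsto P).comp hzt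
      have h2 := ((continuous_rodDir (J j).c' (J j).i').tendsto P).comp hzt
      have h3 := ((continuous_gap (J j)).tendsto w).comp hw
      exact (continuous_det3.tendsto (rodDir P (J j).c (J j).i, rodDir P (J j).c' (J j).i',
        (J j).gap w)).comp (h1.prodMk_nhds (h2.prodMk_nhds h3))
    have hle : (J j).κ * det3 (rodDir P (J j).c (J j).i) (rodDir P (J j).c' (J j).i')
          ((J j).gap w) ≤ 0 := by
      refine le_of_tendsto hlim (Eventually.of_forall fun k => ?_)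
      have h1 := hvol (φ k) j
      rw [vol_add_smul (hJ j)] at h1
      exact nonpos_of_mul_nonpos_right h1 (hr0 _)
    rw [(hJ j).det, ← mul_assoc] at hle
    exact nonpos_of_mul_nonpos_right hle (mul_self_pos.2 (hJ j).ne)
  -- contradiction
  obtain ⟨A, a, hA, hAv⟩ := hFOR w hL hV
  obtain ⟨Q, hQdet, hQ⟩ := exists_rotation A hA
  have hkey : Tendsto (fun k => (v (φ k) - w) - fun (c : ι) (i : Fin 4) =>
      (r (φ k))⁻¹ • (Q (r (φ k)) (P c i) - P c i - r (φ k) • A (P c i))) atTop (𝓝 (0 : ι → Fin 4 → E3)) := by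
    have h1 : Tendsto (fun k => v (φ k) - w) atTop (𝓝 0) := by
      have := hw.sub_const w
      simpa using this
    have h2 : Tendsto (fun k => fun (c : ι) (i : Fin 4) =>
      (r (φ k))⁻¹ • (Q (r (φ k)) (P c i) - P c i - r (φ k) • A (P c i))) atTop (𝓝 (0 : ι → Fin 4 → E3)) := by
      rw [tendsto_pi_nhds]; intro c
      rw [tendsto_pi_nhds]; intro i
      refine (hQ (P c i)).comp ?_
      rw [tendsto_nhdsWithin_iff]
      exact ⟨hrt', Eventually.of_forall fun k => hr0 _⟩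
    have := h1.sub h2
    simpa using this
  have hev : ∀ᶠ k in atTop, ‖(v (φ k) - w) - fun (c : ι) (i : Fin 4) =>
      (r (φ k))⁻¹ • (Q (r (φ k)) (P c i) - P c i - r (φ k) • A (P c i))‖ < 1 := by
    have := hkey.norm
    rw [norm_zero] at this
    exact this.eventually (gt_mem_nhds one_pos)
  obtain ⟨k, hk⟩ := hev.exists
  set ρ := r (φ k) with hρ
  have hρ0 : 0 < ρ := hr0 _
  have h1 : Metric.infDist (act (R (φ k)) (b (φ k)) (P + ρ • v (φ k))) (orbit P) ≤
      dist (act (R (φ k)) (b (φ k)) (P + ρ • v (φ k)))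
        (act (R (φ k)) (b (φ k)) (act (Q ρ) (ρ • a) P)) :=
    Metric.infDist_le_dist_of_mem (act_mem_orbit' (hR _) (act_mem_orbit (hQdet _)))
  rw [dist_act, hd (φ k)] at h1
  have h2 : P + ρ • v (φ k) - act (Q ρ) (ρ • a) P = ρ • ((v (φ k) - w) - fun (c : ι) (i : Fin 4) =>
      ρ⁻¹ • (Q ρ (P c i) - P c i - ρ • A (P c i))) := by
    funext c i
    simp only [Pi.sub_apply, Pi.add_apply, Pi.smul_apply, act, hAv c i]
    rw [smul_sub ρ, smul_inv_smul₀ hρ0.ne']
    module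
  rw [dist_eq_norm, h2, norm_smul, Real.norm_of_nonneg hρ0.le] at h1
  nlinarith

end UnlockChains
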