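import Pool.Agent.Helper2.Ch.Compact2

/-!
# Compactness, final form
-/

namespace UnlockChains

open Set Filter Topology
open scoped RealInnerProductSpace

variable {ι : Type*} [Fintype ι] {K : Type*} [Finite K]

/-- near the macroscopic configuration, vanishing volume forces the rods to meet -/
theorem crossing_near {P : ι → Fin 4 → E3} {j : Crossing ι} (hj : IsCrossing P j)
    (hφ : j.φ ≠ 0) : ∃ δ > (0:ℝ), ∀ Y : ι → Fin 4 → E3, dist Y P < δ → j.vol Y = 0 →
      ¬ Disjoint (rod Y j.c j.i) (rod Y j.c' j.i') := by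
  by_contra hcon
  push Not at hcon
  have h1 : ∀ k : ℕ, ∃ (Y : ι → Fin 4 → E3) (w : Fin 3 → ℝ), dist Y P < 1 / ((k:ℝ) + 1) ∧
      ‖w‖ = 1 ∧ w 0 • rodDir Y j.c j.i + w 1 • rodDir Y j.c' j.i' + w 2 • j.gap Y = 0 ∧
      Disjoint (rod Y j.c j.i) (rod Y j.c' j.i') := by
    intro k
    obtain ⟨Y, hY, hv, hd⟩ := hcon (1 / ((k:ℝ) + 1)) (by positivity)
    have h0 : det3 (rodDir Y j.c j.i) (rodDir Y j.c' j.i') (j.gap Y) = 0 := by
      rcases mul_eq_zero.1 hv with h | h
      · exact absurd h hj.ne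
      · exact h
    obtain ⟨w, hw1, hw2⟩ := exists_of_det3_eq_zero h0
    exact ⟨Y, w, hY, hw1, hw2, hd⟩
  choose Y w hY hw1 hw2 hd using h1
  obtain ⟨ω, -, ψ, hψ, hω⟩ := tendsto_subseq_of_bounded
    (Metric.isBounded_closedBall (x := (0 : Fin 3 → ℝ)) (r := 1)) (x := w)
    (fun k => by rw [mem_closedBall_zero_iff, hw1 k])
  have hYt : Tendsto (fun k => Y (ψ k)) atTop (𝓝 P) := by
    have : Tendsto Y atTop (𝓝 P) := by
      rw [tendsto_iff_dist_tendsto_zero]
      exact squeeze_zero (fun k => dist_nonneg) (fun k => (hY k).le)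
        tendsto_one_div_add_atTop_nhds_zero_nat
    exact this.comp hψ.tendsto_atTop
  have hω1 : ‖ω‖ = 1 := by
    have h := hω.norm
    have h' : Tendsto (fun k => ‖(w ∘ ψ) k‖) atTop (𝓝 1) := by
      simp only [Function.comp_apply, hw1]; exact tendsto_const_nhds
    exact tendsto_nhds_unique h h'
  have hωi : ∀ i, Tendsto (fun k => w (ψ k) i) atTop (𝓝 (ω i)) := fun i =>
    ((continuous_apply i).tendsto ω).comp hω
  have hgapP : j.gap P = 0 := by simp only [Crossing.gap, hj.pt, sub_self]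
  have hd1 := ((continuous_rodDir j.c j.i).tendsto P).comp hYt
  have hd2 := ((continuous_rodDir j.c' j.i').tendsto P).comp hYt
  have hd3 := ((continuous_gap j).tendsto P).comp hYt
  have hlin : ω 0 • rodDir P j.c j.i + ω 1 • rodDir P j.c' j.i' = 0 := by
    have h1 : Tendsto (fun k => w (ψ k) 0 • rodDir (Y (ψ k)) j.c j.i +
        w (ψ k) 1 • rodDir (Y (ψ k)) j.c' j.i' + w (ψ k) 2 • j.gap (Y (ψ k))) atTop
        (𝓝 (ω 0 • rodDir P j.c j.i + ω 1 • rodDir P j.c' j.i' + ω 2 • j.gap P)) :=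
      (((hωi 0).smul hd1).add ((hωi 1).smul hd2)).add ((hωi 2).smul hd3)
    simp only [hw2] at h1
    have h2 := tendsto_nhds_unique h1 tendsto_const_nhds
    rw [hgapP, smul_zero, add_zero] at h2
    exact h2
  obtain ⟨x, hx⟩ : ∃ x, j.φ x ≠ 0 := by
    by_contra h; push Not at h
    exact hφ (LinearMap.ext fun x => by simpa using h x)
  have hdet : det3 (rodDir P j.c j.i) (rodDir P j.c' j.i') x ≠ 0 := by
    rw [hj.det]; exact mul_ne_zero hj.ne hx
  have hω0 : ω 0 = 0 := by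
    have h1 : det3 (ω 0 • rodDir P j.c j.i + ω 1 • rodDir P j.c' j.i') (rodDir P j.c' j.i') x =
        ω 0 * det3 (rodDir P j.c j.i) (rodDir P j.c' j.i') x := by
      unfold det3; simp only [PiLp.add_apply, PiLp.smul_apply, smul_eq_mul]; ring
    rw [hlin] at h1
    have h2 : det3 0 (rodDir P j.c' j.i') x = 0 := by unfold det3; simp
    rw [h2] at h1
    rcases mul_eq_zero.1 h1.symm with h | h
    · exact h
    · exact absurd h hdet
  have hω1' : ω 1 = 0 := by
    have h1 : det3 (rodDir P j.c j.i) (ω 0 • rodDir P j.c j.i + ω 1 • rodDir P j.c' j.i') x =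
        ω 1 * det3 (rodDir P j.c j.i) (rodDir P j.c' j.i') x := by
      unfold det3; simp only [PiLp.add_apply, PiLp.smul_apply, smul_eq_mul]; ring
    rw [hlin] at h1
    have h2 : det3 (rodDir P j.c j.i) 0 x = 0 := by unfold det3; simp
    rw [h2] at h1
    rcases mul_eq_zero.1 h1.symm with h | h
    · exact h
    · exact absurd h hdet
  have hω2 : ω 2 ≠ 0 := by
    intro h2
    have : ω = 0 := by
      funext i; fin_cases i
      · exact hω0
      · exact hω1'
      · exact h2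
    rw [this, norm_zero] at hω1
    exact zero_ne_one hω1
  have hα : Tendsto (fun k => j.s + w (ψ k) 0 / w (ψ k) 2) atTop (𝓝 j.s) := by
    have := ((hωi 0).div (hωi 2) hω2).const_add j.s
    rw [hω0, zero_div, add_zero] at this
    exact this
  have hβ : Tendsto (fun k => j.s' - w (ψ k) 1 / w (ψ k) 2) atTop (𝓝 j.s') := by
    have := ((hωi 1).div (hωi 2) hω2).const_sub j.s'
    rw [hω1', zero_div, sub_zero] at this
    exact this
  obtain ⟨k, hk1, hk2, hk3, hk4, hk5⟩ := ((hα.eventually (lt_mem_nhds hj.s0)).and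
    ((hα.eventually (gt_mem_nhds hj.s1)).and ((hβ.eventually (lt_mem_nhds hj.s0')).and
    ((hβ.eventually (gt_mem_nhds hj.s1')).and
      ((hωi 2).eventually_ne hω2))))).exists
  refine Set.disjoint_left.1 (hd (ψ k)) (rodPt_mem hk1.le hk2.le) ?_
  have h1 := hw2 (ψ k)
  have : rodPt (Y (ψ k)) j.c j.i (j.s + w (ψ k) 0 / w (ψ k) 2) =
      rodPt (Y (ψ k)) j.c' j.i' (j.s' - w (ψ k) 1 / w (ψ k) 2) := by
    have h2 : (w (ψ k) 2)⁻¹ • (w (ψ k) 0 • rodDir (Y (ψ k)) j.c j.i +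
        w (ψ k) 1 • rodDir (Y (ψ k)) j.c' j.i' + w (ψ k) 2 • j.gap (Y (ψ k))) = 0 := by
      rw [h1, smul_zero]
    rw [smul_add, smul_add, smul_smul, smul_smul, smul_smul, inv_mul_cancel₀ hk5, one_smul] at h2
    unfold Crossing.gap rodPt at h2
    unfold rodPt
    rw [← sub_eq_zero, ← h2]
    simp only [div_eq_mul_inv]
    module
  rw [this]
  exact rodPt_mem hk3.le hk4.le

omit [Fintype ι] in
theorem sameRay_act (R : E3 ≃ₗᵢ[ℝ] E3) (b : E3) (X : ι → Fin 4 → E3) (c : ι) (i i' : Fin 3) :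
    SameRay ℝ (rodDir (act R b X) c i) (rodDir (act R b X) c i') ↔
      SameRay ℝ (rodDir X c i) (rodDir X c i') := by
  rw [sameRay_iff_norm_smul_eq, sameRay_iff_norm_smul_eq, norm_rodDir_act, norm_rodDir_act,
    rodDir_act, rodDir_act, ← map_smul, ← map_smul, R.injective.eq_iff]

theorem straight_near (P : ι → Fin 4 → E3) :
    ∃ δ > (0:ℝ), ∀ Y : ι → Fin 4 → E3, dist Y P < δ → ∀ c,
      ¬ SameRay ℝ (rodDir P c 0) (rodDir P c 1) → ¬ SameRay ℝ (rodDir Y c 0) (rodDir Y c 1) := by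
  have h1 : ∀ c, ∀ᶠ Y in 𝓝 P, ¬ SameRay ℝ (rodDir P c 0) (rodDir P c 1) →
      ¬ SameRay ℝ (rodDir Y c 0) (rodDir Y c 1) := by
    intro c
    by_cases hns : SameRay ℝ (rodDir P c 0) (rodDir P c 1)
    · exact Eventually.of_forall fun Y h => absurd hns h
    · have hopen : IsOpen {Y : ι → Fin 4 → E3 | SameRay ℝ (rodDir Y c 0) (rodDir Y c 1)}ᶜ := by
        refine IsClosed.isOpen_compl (self := ?_)
        simp only [sameRay_iff_norm_smul_eq]
        exact isClosed_eq ((continuous_rodDir c 0).norm.smul (continuous_rodDir c 1))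
          ((continuous_rodDir c 1).norm.smul (continuous_rodDir c 0))
      filter_upwards [hopen.mem_nhds hns] with Y hY _
      exact hY
  obtain ⟨δ, hδ, h⟩ := Metric.eventually_nhds_iff.1 (eventually_all.2 h1)
  exact ⟨δ, hδ, fun Y hY => h hY⟩

omit [Fintype ι] in
theorem norm_rodDir_le [Fintype ι] (X : ι → Fin 4 → E3) (c : ι) (i : Fin 3) :
    ‖rodDir X c i‖ ≤ 2 * ‖X‖ := by
  unfold rodDir
  have h1 : ∀ k, ‖X c k‖ ≤ ‖X‖ := fun k => (norm_le_pi_norm (X c) k).trans (norm_le_pi_norm X c)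
  calc _ ≤ ‖X c i.succ‖ + ‖X c i.castSucc‖ := norm_sub_le _ _
    _ ≤ ‖X‖ + ‖X‖ := add_le_add (h1 _) (h1 _)
    _ = _ := by ring

/-- **Compactness.** A first order rigid core, realised by sufficiently small perturbations, is
locked. -/
theorem core_locked (P u : ι → Fin 4 → E3) (J : K → Crossing ι) (hJ : ∀ j, IsCrossing P (J j))
    (hu : ∀ j, (J j).φ ((J j).gap u) < 0)
    (hFOR : ∀ v : ι → Fin 4 → E3, (∀ c i, ⟪rodDir P c i, rodDir v c i⟫ = 0) →
      (∀ j, (J j).φ ((J j).gap v) ≤ 0) →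
      ∃ (A : E3 →ₗ[ℝ] E3) (b : E3), (∀ x, ⟪A x, x⟫ = 0) ∧ ∀ c k, v c k = A (P c k) + b) :
    ∃ d0 > (0:ℝ), ∀ d, 0 < d → d < d0 → ∀ x : ℝ → ι → Fin 4 → E3,
      (∀ c k, ContinuousOn (fun t => x t c k) (Icc 0 1)) →
      (∀ c k, dist (x 0 c k) (P c k + d • u c k) ≤ d ^ 2) →
      (∀ t ∈ Icc (0:ℝ) 1, ∀ c i, ‖rodDir (x t) c i‖ = ‖rodDir (x 0) c i‖) →
      (∀ t ∈ Icc (0:ℝ) 1, ∀ j,
        Disjoint (rod (x t) (J j).c (J j).i) (rod (x t) (J j).c' (J j).i')) →
      ∀ c, ¬ SameRay ℝ (rodDir P c 0) (rodDir P c 1) →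
        ¬ SameRay ℝ (rodDir (x 1) c 0) (rodDir (x 1) c 1) := by
  -- constants
  set U : ℝ := ‖u‖ + 1 with hU
  have hU1 : 1 ≤ U := by rw [hU]; linarith [norm_nonneg u]
  set C : ℝ := 8 * ‖P‖ * U + 4 * U ^ 2 with hC
  obtain ⟨r0, hr0, hlim⟩ := limit_lemma P J hJ hFOR C
  obtain ⟨δ1, hδ1, hstr⟩ := straight_near P
  have hφ : ∀ j, (J j).φ ≠ 0 := by
    intro j h0
    have := hu j
    rw [h0] at this
    simp at this
  have hcr : ∃ δ > (0:ℝ), ∀ Y : ι → Fin 4 → E3, dist Y P < δ → ∀ j, (J j).vol Y = 0 →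
      ¬ Disjoint (rod Y (J j).c (J j).i) (rod Y (J j).c' (J j).i') := by
    have h1 : ∀ j, ∀ᶠ Y in 𝓝 P, (J j).vol Y = 0 →
        ¬ Disjoint (rod Y (J j).c (J j).i) (rod Y (J j).c' (J j).i') := by
      intro j
      obtain ⟨δ, hδ, h⟩ := crossing_near (hJ j) (hφ j)
      exact Metric.eventually_nhds_iff.2 ⟨δ, hδ, fun Y hY => h Y hY⟩
    obtain ⟨δ, hδ, h⟩ := Metric.eventually_nhds_iff.1 (eventually_all.2 h1)
    exact ⟨δ, hδ, fun Y hY => h hY⟩
  obtain ⟨δ2, hδ2, hcross⟩ := hcr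
  have hvo : ∃ δ > (0:ℝ), ∀ (v X : ι → Fin 4 → E3), dist v u < δ → dist X P < δ → ∀ j,
      (J j).κ * det3 (rodDir X (J j).c (J j).i) (rodDir X (J j).c' (J j).i') ((J j).gap v) < 0 := by
    have h1 : ∀ j, ∀ᶠ p : (ι → Fin 4 → E3) × (ι → Fin 4 → E3) in 𝓝 (u, P),
        (J j).κ * det3 (rodDir p.2 (J j).c (J j).i) (rodDir p.2 (J j).c' (J j).i')
          ((J j).gap p.1) < 0 := by
      intro j
      have hcont : Continuous fun p : (ι → Fin 4 → E3) × (ι → Fin 4 → E3) =>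
          (J j).κ * det3 (rodDir p.2 (J j).c (J j).i) (rodDir p.2 (J j).c' (J j).i')
          ((J j).gap p.1) :=
        continuous_const.mul (continuous_det3.comp
          (((continuous_rodDir _ _).comp continuous_snd).prodMk
            (((continuous_rodDir _ _).comp continuous_snd).prodMk
              ((continuous_gap (J j)).comp continuous_fst))))
      refine hcont.continuousAt.eventually (gt_mem_nhds ?_)
      simp only
      rw [(hJ j).det, ← mul_assoc]
      exact mul_neg_of_pos_of_neg (mul_self_pos.2 (hJ j).ne) (hu j)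
    obtain ⟨δ, hδ, h⟩ := Metric.eventually_nhds_iff.1 (eventually_all.2 h1)
    refine ⟨δ, hδ, fun v X hv hX => ?_⟩
    exact h (y := (v, X)) (by rw [Prod.dist_eq]; exact max_lt hv hX)
  obtain ⟨δ3, hδ3, hvol0⟩ := hvo
  set δ := min (min δ1 δ2) (min δ3 (min r0 1)) with hδ
  have hδpos : 0 < δ := by
    rw [hδ]; exact lt_min (lt_min hδ1 hδ2) (lt_min hδ3 (lt_min hr0 one_pos))
  have e1 : δ ≤ δ1 := (min_le_left _ _).trans (min_le_left _ _)
  have e2 : δ ≤ δ2 := (min_le_left _ _).trans (min_le_right _ _)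
  have e3 : δ ≤ δ3 := (min_le_right _ _).trans (min_le_left _ _)
  have e4 : δ ≤ r0 := (min_le_right _ _).trans ((min_le_right _ _).trans (min_le_left _ _))
  have e5 : δ ≤ 1 := (min_le_right _ _).trans ((min_le_right _ _).trans (min_le_right _ _))
  refine ⟨(δ / U) ^ 2, by positivity, ?_⟩
  intro d hd0 hd x hcont hx0 hlen hdisj c hnsc hsame
  -- `r = √d`
  set r := Real.sqrt d with hr
  have hrpos : 0 < r := Real.sqrt_pos.2 hd0
  have hr2 : r ^ 2 = d := Real.sq_sqrt hd0.le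
  have hrδ : r < δ / U := by
    rw [hr]; exact (Real.sqrt_lt' (by positivity)).2 hd
  have hrU : r * U < δ := by rwa [lt_div_iff₀ (by linarith)] at hrδ
  have hr1 : r < δ := by nlinarith
  have hdr : d ≤ r := by rw [← hr2]; nlinarith
  -- initial data
  set v0 : ι → Fin 4 → E3 := d⁻¹ • (x 0 - P) with hv0
  have hx0v : x 0 = P + d • v0 := by
    rw [hv0, smul_smul, mul_inv_cancel₀ hd0.ne', one_smul]; abel
  have hv0u : dist v0 u ≤ d := by
    rw [dist_pi_le_iff hd0.le]; intro c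
    rw [dist_pi_le_iff hd0.le]; intro k
    have h1 := hx0 c k
    have h2 : x 0 c k = P c k + d • v0 c k := by rw [hx0v]; rfl
    rw [h2, dist_add_left, dist_smul₀, Real.norm_of_nonneg hd0.le, sq] at h1
    exact le_of_mul_le_mul_left h1 hd0
  have hd1 : d ≤ 1 := by linarith
  have hv0n : ‖v0‖ ≤ U := by
    have : ‖v0‖ ≤ ‖v0 - u‖ + ‖u‖ := by
      have := norm_add_le (v0 - u) u
      rwa [sub_add_cancel] at this
    rw [← dist_eq_norm] at this
    rw [hU]; linarith
  have hx0P : dist (x 0) P ≤ d * U := by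
    rw [dist_eq_norm, hx0v, add_sub_cancel_left, norm_smul, Real.norm_of_nonneg hd0.le]
    exact mul_le_mul_of_nonneg_left hv0n hd0.le
  have hdU : d * U < r := by rw [← hr2]; nlinarith
  -- volumes at time 0
  have hvolneg : ∀ j, (J j).vol (x 0) < 0 := by
    intro j
    have h1 := hvol0 v0 (x 0) (by linarith) (by linarith) j
    rw [hx0v, vol_add_smul (hJ j), ← hx0v]
    exact mul_neg_of_pos_of_neg hd0 h1
  -- lengths at time 0
  have hlen0 : ∀ c i, |‖rodDir (x 0) c i‖ ^ 2 - ‖rodDir P c i‖ ^ 2| ≤ C * r ^ 2 := by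
    intro c i
    have hP := norm_rodDir_le P c i
    have hv := (norm_rodDir_le v0 c i).trans (mul_le_mul_of_nonneg_left hv0n zero_le_two)
    rw [hx0v, rodDir_add_smul, norm_add_sq_real, real_inner_smul_right, norm_smul,
      Real.norm_of_nonneg hd0.le, hr2]
    have h3 := abs_real_inner_le_norm (rodDir P c i) (rodDir v0 c i)
    have h4 : |⟪rodDir P c i, rodDir v0 c i⟫| ≤ 2 * ‖P‖ * (2 * U) :=
      h3.trans (mul_le_mul hP hv (norm_nonneg _) (by positivity))
    have h5 : ‖rodDir P c i‖ ^ 2 + 2 * (d * ⟪rodDir P c i, rodDir v0 c i⟫) +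
        (d * ‖rodDir v0 c i‖) ^ 2 - ‖rodDir P c i‖ ^ 2 =
        d * (2 * ⟪rodDir P c i, rodDir v0 c i⟫ + d * ‖rodDir v0 c i‖ ^ 2) := by ring
    rw [h5, abs_mul, abs_of_pos hd0, mul_comm C d]
    refine mul_le_mul_of_nonneg_left ?_ hd0.le
    have h6 : ‖rodDir v0 c i‖ ^ 2 ≤ (2 * U) ^ 2 := by gcongr
    calc |2 * ⟪rodDir P c i, rodDir v0 c i⟫ + d * ‖rodDir v0 c i‖ ^ 2|
        ≤ |2 * ⟪rodDir P c i, rodDir v0 c i⟫| + |d * ‖rodDir v0 c i‖ ^ 2| := abs_add_le _ _
      _ ≤ 2 * (2 * ‖P‖ * (2 * U)) + 1 * (2 * U) ^ 2 := by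
          rw [abs_mul, abs_two, abs_of_nonneg (by positivity : 0 ≤ d * ‖rodDir v0 c i‖ ^ 2)]
          gcongr
      _ = C := by rw [hC]; ring
  -- the distance function
  have hxc : ContinuousOn x (Icc 0 1) := by
    rw [continuousOn_pi]; intro c
    rw [continuousOn_pi]; intro k
    exact hcont c k
  set h : ℝ → ℝ := fun t => Metric.infDist (x t) (orbit P) with hh
  have hhc : ContinuousOn h (Icc 0 1) := (Metric.continuous_infDist_pt _).comp_continuousOn hxc
  have hh0 : h 0 < r := (Metric.infDist_le_dist_of_mem (self_mem_orbit P)).trans_lt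
    (hx0P.trans_lt hdU)
  have hh1 : r < h 1 := by
    by_contra hlt
    push Not at hlt
    obtain ⟨R, b, Z, hR, hZ, hZP⟩ := exists_near (P := P) (Y := x 1) (r := δ) (hlt.trans_lt hr1)
    have := hstr Z (hZP.trans_le e1) c hnsc
    apply this
    rw [← sameRay_act R b, ← hZ]
    exact hsame
  -- first time at distance `r`
  set T : Set ℝ := {t ∈ Icc (0:ℝ) 1 | r ≤ h t} with hT
  have hTc : IsCompact T := by
    have : IsClosed T := by
      have := hhc.preimage_isClosed_of_isClosed isClosed_Icc (isClosed_Ici (a := r))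
      have he : T = Icc (0:ℝ) 1 ∩ h ⁻¹' Ici r := by
        ext t; simp only [hT, mem_setOf_eq, mem_inter_iff, mem_preimage, mem_Ici]
      rw [he]; exact this
    exact isCompact_Icc.of_isClosed_subset this (fun t ht => ht.1)
  obtain ⟨s, ⟨hs01, hsr⟩, hsmin⟩ := hTc.exists_isLeast ⟨1, ⟨by norm_num, le_rfl⟩, hh1.le⟩
  have hss : h s = r := by
    by_contra hne
    have hgt : r < h s := lt_of_le_of_ne hsr (Ne.symm hne)
    have hsub : Icc 0 s ⊆ Icc (0:ℝ) 1 := Icc_subset_Icc_right hs01.2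
    obtain ⟨t, ht, hht⟩ := intermediate_value_Icc hs01.1 (hhc.mono hsub) ⟨hh0.le, hgt.le⟩
    have h1 := hsmin ⟨hsub ht, hht.ge⟩
    have : t = s := le_antisymm ht.2 h1
    rw [this] at hht
    exact hne hht
  have hle : ∀ t ∈ Icc (0:ℝ) s, h t ≤ r := by
    intro t ht
    rcases eq_or_lt_of_le ht.2 with rfl | hlt
    · exact hss.le
    · by_contra hgt
      push Not at hgt
      have := hsmin ⟨⟨ht.1, ht.2.trans hs01.2⟩, hgt.le⟩
      linarith
  -- volumes do not vanish before time `s`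
  have hvne : ∀ t ∈ Icc (0:ℝ) s, ∀ j, (J j).vol (x t) ≠ 0 := by
    intro t ht j h0
    obtain ⟨R, b, Z, hR, hZ, hZP⟩ := exists_near (P := P) (Y := x t) (r := δ)
      ((hle t ht).trans_lt hr1)
    have h1 : (J j).vol Z = 0 := by rw [← vol_act hR b, ← hZ]; exact h0
    have h2 := hcross Z (hZP.trans_le e2) j h1
    apply h2
    have h3 := hdisj t ⟨ht.1, ht.2.trans hs01.2⟩ j
    rw [hZ] at h3
    have himg : ∀ c i, rod (act R b Z) c i = (fun y => R y + b) '' rod Z c i := by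
      intro c i
      unfold rod act
      ext y
      constructor
      · intro hy
        rw [segment_eq_image'] at hy
        obtain ⟨θ, hθ, rfl⟩ := hy
        refine ⟨Z c i.castSucc + θ • (Z c i.succ - Z c i.castSucc), ?_, ?_⟩
        · rw [segment_eq_image']; exact ⟨θ, hθ, rfl⟩
        · simp only [map_add, map_smul, map_sub, add_sub_add_right_eq_sub]; abel
      · rintro ⟨y, hy, rfl⟩
        rw [segment_eq_image'] at hy ⊢
        obtain ⟨θ, hθ, rfl⟩ := hy
        refine ⟨θ, hθ, ?_⟩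
        simp only [map_add, map_smul, map_sub, add_sub_add_right_eq_sub]; abel
    rw [himg, himg] at h3
    exact Disjoint.of_image h3
  have hvs : ∀ j, (J j).vol (x s) ≤ 0 := by
    intro j
    by_contra hpos
    push Not at hpos
    have hsub : Icc 0 s ⊆ Icc (0:ℝ) 1 := Icc_subset_Icc_right hs01.2
    have hcv : ContinuousOn (fun t => (J j).vol (x t)) (Icc 0 s) :=
      (continuous_vol (J j)).comp_continuousOn (hxc.mono hsub)
    obtain ⟨t, ht, ht0⟩ := intermediate_value_Icc hs01.1 hcv ⟨(hvolneg j).le, hpos.le⟩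
    exact hvne t ht j ht0
  refine hlim r hrpos (hr1.trans_le e4) (x s) hss ?_ hvs
  intro c i
  rw [hlen s hs01]
  exact hlen0 c i

end UnlockChains
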