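import Mathlib

/-!
# Polygonal chains in space, cuts and motions (MP_09cb38_co): the definitions
-/

namespace UnlockChains

open Set

/-- Euclidean three-space. -/
abbrev E3 := EuclideanSpace ℝ (Fin 3)

/-- `IsChain n v`: the points `v 0, …, v n` are the vertices of a non-self-intersecting
`n`-link chain in `ℝ³` (the points `v i` with `i > n` play no role).  Link `i` (for `i < n`) is
the segment from `v i` to `v (i + 1)`; links have positive length, adjacent links meet only in
their common vertex and non-adjacent links are disjoint. -/
def IsChain (n : ℕ) (v : ℕ → E3) : Prop :=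
  (∀ i < n, v i ≠ v (i + 1)) ∧
  ∀ i j, i < j → j < n →
    segment ℝ (v i) (v (i + 1)) ∩ segment ℝ (v j) (v (j + 1)) = if j = i + 1 then {v j} else ∅

/-- `IsPosition n v C a b`: the `n` links of the chain `v`, after cutting at the vertices with
index in `C`, placed so that link `i` runs from `a i` to `b i`: all links keep their lengths,
links `i` and `i + 1` stay joined at every vertex `i + 1` that has not been cut, two
links joined at a vertex meet only there, and any two other links (of the same piece or of
different pieces) are disjoint. -/
def IsPosition (n : ℕ) (v : ℕ → E3) (C : Finset ℕ) (a b : ℕ → E3) : Prop :=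
  (∀ i < n, dist (a i) (b i) = dist (v i) (v (i + 1))) ∧
  (∀ i, i + 1 < n → i + 1 ∉ C → b i = a (i + 1)) ∧
  ∀ i j, i < j → j < n →
    segment ℝ (a i) (b i) ∩ segment ℝ (a j) (b j) = if j = i + 1 ∧ j ∉ C then {a j} else ∅

/-- `IsStraight n C a b`: at every vertex that has not been cut the two links meeting there
form a straight angle, so that every piece is a straight segment. -/
def IsStraight (n : ℕ) (C : Finset ℕ) (a b : ℕ → E3) : Prop :=
  ∀ i, i + 1 < n → i + 1 ∉ C → SameRay ℝ (b i - a i) (b (i + 1) - a (i + 1))

/-- `IsSeparated n C d a b`: any two points on different pieces have distance at least `d`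
(links `i < j` belong to different pieces if some vertex `c` with `i < c ≤ j` has been cut). -/
def IsSeparated (n : ℕ) (C : Finset ℕ) (d : ℝ) (a b : ℕ → E3) : Prop :=
  ∀ i j, i < j → j < n → (∃ c ∈ C, i < c ∧ c ≤ j) →
    ∀ p ∈ segment ℝ (a i) (b i), ∀ q ∈ segment ℝ (a j) (b j), d ≤ dist p q

/-- `Unlocks n v C`: after cutting the chain `v` at the vertices with index in `C`, the pieces
can be separated and straightened: for every `d` there is a motion (a continuous family of
positions, parametrised by `t ∈ [0,1]`, starting at the given chain; at time `0` the pieces still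
touch at the cut vertices, at all later times they are disjoint) ending in a position in which
every piece is straight and points on different pieces have distance at least `d`. -/
def Unlocks (n : ℕ) (v : ℕ → E3) (C : Finset ℕ) : Prop :=
  ∀ d : ℝ, ∃ a b : ℝ → ℕ → E3,
    (∀ i < n, ContinuousOn (fun t => a t i) (Icc 0 1)) ∧
    (∀ i < n, ContinuousOn (fun t => b t i) (Icc 0 1)) ∧
    (∀ i < n, a 0 i = v i ∧ b 0 i = v (i + 1)) ∧
    (∀ t ∈ Ioc (0 : ℝ) 1, IsPosition n v C (a t) (b t)) ∧
    IsStraight n C (a 1) (b 1) ∧ IsSeparated n C d (a 1) (b 1)

/-- Every `n`-link chain can be cut at some `k` of its interior vertices so that the resulting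
pieces can be separated and straightened. -/
def Unlockable (n k : ℕ) : Prop :=
  ∀ v : ℕ → E3, IsChain n v →
    ∃ C : Finset ℕ, (∀ c ∈ C, 0 < c ∧ c < n) ∧ C.card = k ∧ Unlocks n v C

/-- The function `f(n)` of the problem: the least `k` such that every `n`-link chain can be cut
at some `k` of its interior vertices so that the pieces can be separated and straightened. -/
noncomputable def cutNumber (n : ℕ) : ℕ := sInf {k | Unlockable n k}

end UnlockChains
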