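import Pool.Agent.Helper2.Ch.Defs

/-!
# The upper bound: cutting at every second vertex unlocks every chain
-/

namespace UnlockChains

open Set Filter

theorem IsChain.inj {n : ℕ} {v : ℕ → E3} (h : IsChain n v) {i j : ℕ} (hij : i < j) (hj : j ≤ n) :
    v i ≠ v j := by
  obtain ⟨h1, h2⟩ := h
  intro he
  by_cases hj1 : j = i + 1
  · subst hj1; exact h1 i (by omega) he
  · rcases Nat.lt_or_ge j n with hjn | hjn
    · have := h2 i j hij hjn
      rw [if_neg hj1] at this
      have hz : v j ∈ segment ℝ (v i) (v (i + 1)) ∩ segment ℝ (v j) (v (j + 1)) := by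
        refine ⟨?_, left_mem_segment _ _ _⟩
        rw [← he]; exact left_mem_segment _ _ _
      rw [this] at hz; exact hz
    · have hjn' : j = n := by omega
      subst hjn'
      obtain ⟨k, rfl⟩ : ∃ k, j = k + 1 := ⟨j - 1, by omega⟩
      have := h2 i k (by omega) (by omega)
      have hz : v (k + 1) ∈ segment ℝ (v i) (v (i + 1)) ∩ segment ℝ (v k) (v (k + 1)) := by
        refine ⟨?_, right_mem_segment _ _ _⟩
        rw [← he]; exact left_mem_segment _ _ _
      rw [this] at hz
      split_ifs at hz with hk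
      · exact h1 k (by omega) (mem_singleton_iff.1 hz).symm
      · exact hz

/-- normalisation of a vector -/
noncomputable def nz (x : E3) : E3 := ‖x‖⁻¹ • x

theorem norm_nz {x : E3} (hx : x ≠ 0) : ‖nz x‖ = 1 := by
  unfold nz; rw [norm_smul, norm_inv, norm_norm]
  exact inv_mul_cancel₀ (norm_ne_zero_iff.2 hx)

theorem smul_nz {x : E3} (hx : x ≠ 0) : ‖x‖ • nz x = x := by
  unfold nz; rw [smul_smul, mul_inv_cancel₀ (norm_ne_zero_iff.2 hx), one_smul]

/-- normalised interpolation between `u` and `-w` -/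
noncomputable def rot (u w : E3) (s : ℝ) : E3 := nz ((1 - s) • u - s • w)

theorem rot_ne {u w : E3} (hu : ‖u‖ = 1) (hw : ‖w‖ = 1) (huw : u ≠ w) {s : ℝ} (h0 : 0 ≤ s)
    (h1 : s ≤ 1) : (1 - s) • u - s • w ≠ 0 := by
  intro h
  have h' : (1 - s) • u = s • w := sub_eq_zero.1 h
  have hn := congrArg norm h'
  rw [norm_smul, norm_smul, hu, hw, Real.norm_of_nonneg h0, Real.norm_of_nonneg (by linarith)] at hn
  have hs : s = 1 / 2 := by linarith
  subst hs
  apply huw
  have : ((1:ℝ) - 1 / 2) = 1 / 2 := by norm_num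
  rw [this] at h'
  exact smul_right_injective _ (by norm_num : (1/2:ℝ) ≠ 0) h'

theorem norm_rot {u w : E3} (hu : ‖u‖ = 1) (hw : ‖w‖ = 1) (huw : u ≠ w) {s : ℝ} (h0 : 0 ≤ s)
    (h1 : s ≤ 1) : ‖rot u w s‖ = 1 := norm_nz (rot_ne hu hw huw h0 h1)

theorem rot_ne_w {u w : E3} (hu : ‖u‖ = 1) (hw : ‖w‖ = 1) (huw : u ≠ w) {s : ℝ} (h0 : 0 ≤ s)
    (h1 : s ≤ 1) : rot u w s ≠ w := by
  intro h
  have hne := rot_ne hu hw huw h0 h1
  have h2 := smul_nz hne
  unfold rot at h
  rw [h] at h2
  set c := ‖(1 - s) • u - s • w‖ with hc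
  have hcpos : 0 < c := norm_pos_iff.2 hne
  have h3 : (1 - s) • u = (c + s) • w := by
    rw [add_smul]; rw [h2]; abel
  have hn := congrArg norm h3
  rw [norm_smul, norm_smul, hu, hw, Real.norm_of_nonneg (by linarith : (0:ℝ) ≤ 1 - s),
    Real.norm_of_nonneg (by linarith : (0:ℝ) ≤ c + s), mul_one, mul_one] at hn
  rw [← hn] at h3
  apply huw
  refine smul_right_injective _ (?_ : (1 - s) ≠ 0) h3
  intro h0'
  linarith

theorem rot_zero {u w : E3} (hu : ‖u‖ = 1) : rot u w 0 = u := by
  unfold rot nz; simp [hu]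

theorem rot_one {u w : E3} (hw : ‖w‖ = 1) : rot u w 1 = -w := by
  unfold rot nz; simp [hw]

theorem continuousOn_rot {u w : E3} (hu : ‖u‖ = 1) (hw : ‖w‖ = 1) (huw : u ≠ w) :
    ContinuousOn (rot u w) (Icc 0 1) := by
  unfold rot nz
  refine ContinuousOn.smul (f := fun s : ℝ => ‖(1 - s) • u - s • w‖⁻¹)
    (g := fun s : ℝ => (1 - s) • u - s • w) ?_ ?_
  · apply ContinuousOn.inv₀
    · exact Continuous.continuousOn (by fun_prop)
    · intro s hs
      exact norm_ne_zero_iff.2 (rot_ne hu hw huw hs.1 hs.2)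
  · exact Continuous.continuousOn (by fun_prop)

/-- directions at a joint of a chain are different -/
theorem IsChain.dir_ne {n : ℕ} {v : ℕ → E3} (h : IsChain n v) {i : ℕ} (hi : i + 1 < n) :
    nz (v i - v (i + 1)) ≠ nz (v (i + 2) - v (i + 1)) := by
  obtain ⟨h1, h2⟩ := h
  have e1 : v i - v (i + 1) ≠ 0 := sub_ne_zero.2 (h1 i (by omega))
  have e2 : v (i + 2) - v (i + 1) ≠ 0 := sub_ne_zero.2 (h1 (i + 1) hi).symm
  intro he
  have p1 : 0 < ‖v i - v (i + 1)‖ := norm_pos_iff.2 e1
  have p2 : 0 < ‖v (i + 2) - v (i + 1)‖ := norm_pos_iff.2 e2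
  have hI := h2 i (i + 1) (by omega) hi
  rw [if_pos rfl] at hI
  -- a common point at distance `m` from the joint
  set m := min ‖v i - v (i + 1)‖ ‖v (i + 2) - v (i + 1)‖ with hm
  have hmpos : 0 < m := lt_min p1 p2
  have hz : v (i + 1) + m • nz (v i - v (i + 1)) ∈
      segment ℝ (v i) (v (i + 1)) ∩ segment ℝ (v (i + 1)) (v (i + 1 + 1)) := by
    constructor
    · rw [segment_symm, segment_eq_image']
      refine ⟨m / ‖v i - v (i + 1)‖, ⟨by positivity, (div_le_one p1).2 (min_le_left _ _)⟩, ?_⟩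
      simp only [nz, smul_smul, div_eq_mul_inv]
    · rw [he, segment_eq_image']
      refine ⟨m / ‖v (i + 2) - v (i + 1)‖, ⟨by positivity, (div_le_one p2).2 (min_le_right _ _)⟩, ?_⟩
      simp only [nz, smul_smul, div_eq_mul_inv]
  rw [hI, mem_singleton_iff] at hz
  have : m • nz (v i - v (i + 1)) = 0 := by simpa using hz
  have hn := congrArg norm this
  rw [norm_smul, norm_nz e1, Real.norm_of_nonneg hmpos.le, norm_zero] at hn
  linarith

/-- a two-link piece at joint `J` with distinct directions -/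
theorem two_link {J u w : E3} (hu : ‖u‖ = 1) (hw : ‖w‖ = 1) (huw : u ≠ w) {l m : ℝ} (hl : 0 ≤ l)
    (hm : 0 ≤ m) : segment ℝ (J + l • u) J ∩ segment ℝ J (J + m • w) = {J} := by
  apply Subset.antisymm
  · rintro z ⟨hz1, hz2⟩
    rw [segment_symm, segment_eq_image'] at hz1
    rw [segment_eq_image'] at hz2
    obtain ⟨θ, hθ, h1⟩ := hz1
    obtain ⟨η, hη, h2⟩ := hz2
    simp only [add_sub_cancel_left, smul_smul] at h1 h2
    have h3 : (θ * l) • u = (η * m) • w := by
      have := h1.trans h2.symm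
      simpa using this
    have hn := congrArg norm h3
    rw [norm_smul, norm_smul, hu, hw, Real.norm_of_nonneg (mul_nonneg hθ.1 hl),
      Real.norm_of_nonneg (mul_nonneg hη.1 hm), mul_one, mul_one] at hn
    by_cases h0 : θ * l = 0
    · rw [mem_singleton_iff, ← h1, h0, zero_smul, add_zero]
    · exfalso
      rw [← hn] at h3
      exact huw (smul_right_injective _ h0 h3)
  · rintro z hz
    rw [mem_singleton_iff] at hz
    subst hz
    exact ⟨right_mem_segment _ _ _, left_mem_segment _ _ _⟩

theorem mem_ball_of_segment {J x z : E3} (hz : z ∈ segment ℝ J x) : dist z J ≤ dist x J := by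
  rw [segment_eq_image'] at hz
  obtain ⟨θ, hθ, rfl⟩ := hz
  rw [dist_eq_norm, dist_eq_norm, add_sub_cancel_left, norm_smul, Real.norm_of_nonneg hθ.1]
  exact mul_le_of_le_one_left (norm_nonneg _) hθ.2

/-- index of the centre vertex of the piece of link `i` -/
def ctr (i : ℕ) : ℕ := 2 * (i / 2) + 1

/-- direction of the non-central end of link `i` (seen from the centre) at time `s` -/
noncomputable def dirn (n : ℕ) (v : ℕ → E3) (i : ℕ) (s : ℝ) : E3 :=
  if i % 2 = 0 then
    if i + 1 < n then rot (nz (v i - v (i + 1))) (nz (v (i + 2) - v (i + 1))) s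
    else nz (v i - v (i + 1))
  else nz (v (i + 1) - v i)

/-- start of link `i` -/
noncomputable def posA (n : ℕ) (v : ℕ → E3) (lam s : ℝ) (i : ℕ) : E3 :=
  if i % 2 = 0 then lam • v (i + 1) + dist (v i) (v (i + 1)) • dirn n v i s else lam • v i

/-- end of link `i` -/
noncomputable def posB (n : ℕ) (v : ℕ → E3) (lam s : ℝ) (i : ℕ) : E3 :=
  if i % 2 = 0 then lam • v (i + 1) else lam • v i + dist (v i) (v (i + 1)) • dirn n v i s

variable {n : ℕ} {v : ℕ → E3}

theorem norm_dirn (h : IsChain n v) {i : ℕ} (hi : i < n) {s : ℝ} (h0 : 0 ≤ s) (h1 : s ≤ 1) :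
    ‖dirn n v i s‖ = 1 := by
  have e1 : v i - v (i + 1) ≠ 0 := sub_ne_zero.2 (h.1 i (by omega))
  unfold dirn
  split_ifs with h2 h3
  · have e2 : v (i + 2) - v (i + 1) ≠ 0 := sub_ne_zero.2 (h.1 (i + 1) h3).symm
    exact norm_rot (norm_nz e1) (norm_nz e2) (h.dir_ne h3) h0 h1
  · exact norm_nz e1
  · exact norm_nz (sub_ne_zero.2 (h.1 i (by omega)).symm)

theorem continuousOn_dirn (h : IsChain n v) {i : ℕ} (hi : i < n) :
    ContinuousOn (dirn n v i) (Icc 0 1) := by
  have e1 : v i - v (i + 1) ≠ 0 := sub_ne_zero.2 (h.1 i (by omega))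
  unfold dirn
  split_ifs with h2 h3
  · have e2 : v (i + 2) - v (i + 1) ≠ 0 := sub_ne_zero.2 (h.1 (i + 1) h3).symm
    exact continuousOn_rot (norm_nz e1) (norm_nz e2) (h.dir_ne h3)
  · exact continuousOn_const
  · exact continuousOn_const

theorem smul_dirn_zero_even (h : IsChain n v) {i : ℕ} (hi : i < n) (h2 : i % 2 = 0) :
    dist (v i) (v (i + 1)) • dirn n v i 0 = v i - v (i + 1) := by
  have e1 : v i - v (i + 1) ≠ 0 := sub_ne_zero.2 (h.1 i (by omega))
  unfold dirn
  rw [if_pos h2, dist_eq_norm]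
  split_ifs with h3
  · rw [rot_zero (norm_nz e1), smul_nz e1]
  · rw [smul_nz e1]

theorem smul_dirn_odd (h : IsChain n v) {i : ℕ} (hi : i < n) (h2 : ¬ i % 2 = 0) (s : ℝ) :
    dist (v i) (v (i + 1)) • dirn n v i s = v (i + 1) - v i := by
  have e1 : v (i + 1) - v i ≠ 0 := sub_ne_zero.2 (h.1 i (by omega)).symm
  unfold dirn
  rw [if_neg h2, dist_comm, dist_eq_norm, smul_nz e1]

theorem dist_posAB (h : IsChain n v) {i : ℕ} (hi : i < n) (lam : ℝ) {s : ℝ} (h0 : 0 ≤ s)
    (h1 : s ≤ 1) : dist (posA n v lam s i) (posB n v lam s i) = dist (v i) (v (i + 1)) := by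
  unfold posA posB
  split_ifs with h2
  · rw [dist_eq_norm, add_sub_cancel_left, norm_smul, norm_dirn h hi h0 h1, mul_one,
      Real.norm_of_nonneg dist_nonneg]
  · rw [dist_comm, dist_eq_norm, add_sub_cancel_left, norm_smul, norm_dirn h hi h0 h1, mul_one,
      Real.norm_of_nonneg dist_nonneg]

theorem joint (lam s : ℝ) {i : ℕ} (h2 : i % 2 = 0) : posB n v lam s i = posA n v lam s (i + 1) := by
  unfold posA posB
  rw [if_pos h2, if_neg (by omega)]

/-- In phase A every link stays inside the dilated original link and misses the cut end. -/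
theorem phaseA_mem (h : IsChain n v) {i : ℕ} (hi : i < n) {lam : ℝ} (hl : 1 < lam) {z : E3}
    (hz : z ∈ segment ℝ (posA n v lam 0 i) (posB n v lam 0 i)) :
    ∃ z' ∈ segment ℝ (v i) (v (i + 1)), z = lam • z' ∧ z' ≠ (if i % 2 = 0 then v i else v (i + 1)) := by
  have hl0 : (0:ℝ) < lam := by linarith
  have e1 : v i ≠ v (i + 1) := h.1 i hi
  unfold posA posB at hz
  split_ifs with h2
  · rw [if_pos h2, if_pos h2, smul_dirn_zero_even h hi h2, segment_symm, segment_eq_image'] at hz
    obtain ⟨θ, hθ, rfl⟩ := hz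
    rw [add_sub_cancel_left]
    refine ⟨v (i + 1) + (θ / lam) • (v i - v (i + 1)), ?_, ?_, ?_⟩
    · rw [segment_symm, segment_eq_image']
      exact ⟨θ / lam, ⟨div_nonneg hθ.1 hl0.le, (div_le_one hl0).2 (hθ.2.trans hl.le)⟩, rfl⟩
    · rw [smul_add, smul_smul, mul_div_cancel₀ _ hl0.ne']
    · intro he
      have h3 : (1 - θ / lam) • (v i - v (i + 1)) = 0 := by
        rw [sub_smul, one_smul]
        rw [← sub_eq_zero] at he
        rw [← neg_eq_zero, ← he]; abel
      rcases smul_eq_zero.1 h3 with h4 | h4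
      · have : θ / lam = 1 := by linarith
        rw [div_eq_one_iff_eq hl0.ne'] at this
        linarith [hθ.2]
      · exact e1 (sub_eq_zero.1 h4)
  · rw [if_neg h2, if_neg h2, smul_dirn_odd h hi h2, segment_eq_image'] at hz
    obtain ⟨θ, hθ, rfl⟩ := hz
    rw [add_sub_cancel_left]
    refine ⟨v i + (θ / lam) • (v (i + 1) - v i), ?_, ?_, ?_⟩
    · rw [segment_eq_image']
      exact ⟨θ / lam, ⟨div_nonneg hθ.1 hl0.le, (div_le_one hl0).2 (hθ.2.trans hl.le)⟩, rfl⟩
    · rw [smul_add, smul_smul, mul_div_cancel₀ _ hl0.ne']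
    · intro he
      have h3 : (1 - θ / lam) • (v (i + 1) - v i) = 0 := by
        rw [sub_smul, one_smul]
        rw [← sub_eq_zero] at he
        rw [← neg_eq_zero, ← he]; abel
      rcases smul_eq_zero.1 h3 with h4 | h4
      · have : θ / lam = 1 := by linarith
        rw [div_eq_one_iff_eq hl0.ne'] at this
        linarith [hθ.2]
      · exact e1 (sub_eq_zero.1 h4).symm

/-- the cut set: even interior vertices -/
def evenCuts (n : ℕ) : Finset ℕ := (Finset.range ((n - 1) / 2)).image fun k => 2 * (k + 1)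

theorem mem_evenCuts {n c : ℕ} : c ∈ evenCuts n ↔ c % 2 = 0 ∧ 0 < c ∧ c < n := by
  unfold evenCuts
  simp only [Finset.mem_image, Finset.mem_range]
  constructor
  · rintro ⟨k, hk, rfl⟩; omega
  · rintro ⟨h1, h2, h3⟩
    exact ⟨c / 2 - 1, by omega, by omega⟩

theorem card_evenCuts (n : ℕ) : (evenCuts n).card = (n - 1) / 2 := by
  unfold evenCuts
  rw [Finset.card_image_of_injective _ (fun a b hab => by simpa using hab), Finset.card_range]

theorem phaseA (h : IsChain n v) {lam : ℝ} (hl : 1 < lam) :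
    IsPosition n v (evenCuts n) (posA n v lam 0) (posB n v lam 0) := by
  have hl0 : (0:ℝ) < lam := by linarith
  refine ⟨fun i hi => dist_posAB h hi lam le_rfl zero_le_one, ?_, ?_⟩
  · intro i hi hC
    rw [mem_evenCuts] at hC
    exact joint lam 0 (by omega)
  · intro i j hij hj
    split_ifs with hc
    · obtain ⟨rfl, hC⟩ := hc
      rw [mem_evenCuts] at hC
      have hi2 : i % 2 = 0 := by omega
      apply Subset.antisymm
      · rintro z ⟨hz1, hz2⟩
        obtain ⟨z1, hz1m, rfl, hz1n⟩ := phaseA_mem h (by omega) hl hz1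
        obtain ⟨z2, hz2m, he, hz2n⟩ := phaseA_mem h hj hl hz2
        have : z1 = z2 := smul_right_injective _ hl0.ne' he
        subst this
        have hI := h.2 i (i + 1) hij hj
        rw [if_pos rfl] at hI
        have : z1 ∈ ({v (i + 1)} : Set E3) := hI ▸ ⟨hz1m, hz2m⟩
        rw [mem_singleton_iff] at this
        rw [mem_singleton_iff, this]
        unfold posA
        rw [if_neg (by omega)]
      · rintro z hz
        rw [mem_singleton_iff] at hz
        subst hz
        refine ⟨?_, left_mem_segment _ _ _⟩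
        rw [← joint lam 0 hi2]; exact right_mem_segment _ _ _
    · rw [eq_empty_iff_forall_notMem]
      rintro z ⟨hz1, hz2⟩
      obtain ⟨z1, hz1m, rfl, hz1n⟩ := phaseA_mem h (by omega) hl hz1
      obtain ⟨z2, hz2m, he, hz2n⟩ := phaseA_mem h hj hl hz2
      have : z1 = z2 := smul_right_injective _ hl0.ne' he
      subst this
      have hI := h.2 i j hij hj
      have hm : z1 ∈ segment ℝ (v i) (v (i + 1)) ∩ segment ℝ (v j) (v (j + 1)) := ⟨hz1m, hz2m⟩
      rw [hI] at hm
      split_ifs at hm with hj1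
      · subst hj1
        rw [mem_singleton_iff] at hm
        have hjC : i + 1 ∈ evenCuts n := by
          by_contra hcon; exact hc ⟨rfl, hcon⟩
        rw [mem_evenCuts] at hjC
        rw [if_neg (by omega)] at hz1n
        exact hz1n hm
      · exact hm

/-- a point of a placed link is within the length of the link of its centre -/
theorem near_ctr (h : IsChain n v) {i : ℕ} (hi : i < n) (lam : ℝ) {s : ℝ} (h0 : 0 ≤ s)
    (h1 : s ≤ 1) {z : E3} (hz : z ∈ segment ℝ (posA n v lam s i) (posB n v lam s i)) :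
    dist z (lam • v (ctr i)) ≤ dist (v i) (v (i + 1)) := by
  by_cases h2 : i % 2 = 0
  · have hB : posB n v lam s i = lam • v (ctr i) := by
      unfold posB ctr
      rw [if_pos h2]; congr 2; omega
    rw [← dist_posAB h hi lam h0 h1, hB]
    rw [segment_symm, hB] at hz
    exact mem_ball_of_segment hz
  · have hA : posA n v lam s i = lam • v (ctr i) := by
      unfold posA ctr
      rw [if_neg h2]; congr 2; omega
    rw [← dist_posAB h hi lam h0 h1, dist_comm (posA n v lam s i), hA]
    rw [hA] at hz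
    exact mem_ball_of_segment hz

theorem far (h : IsChain n v) {i j : ℕ} (hi : i < n) (hj : j < n) {lam K : ℝ} {s : ℝ}
    (hl : 0 ≤ lam) (h0 : 0 ≤ s)
    (h1 : s ≤ 1) (hK : K + dist (v i) (v (i + 1)) + dist (v j) (v (j + 1)) ≤
      lam * dist (v (ctr i)) (v (ctr j))) {p q : E3}
    (hp : p ∈ segment ℝ (posA n v lam s i) (posB n v lam s i))
    (hq : q ∈ segment ℝ (posA n v lam s j) (posB n v lam s j)) : K ≤ dist p q := by
  have h3 := near_ctr h hi lam h0 h1 hp
  have h4 := near_ctr h hj lam h0 h1 hq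
  have h5 : dist (lam • v (ctr i)) (lam • v (ctr j)) = lam * dist (v (ctr i)) (v (ctr j)) := by
    rw [dist_smul₀, Real.norm_of_nonneg hl]
  have h6 : dist (lam • v (ctr i)) (lam • v (ctr j)) ≤
      dist (lam • v (ctr i)) p + dist p q + dist q (lam • v (ctr j)) := dist_triangle4 _ _ _ _
  rw [dist_comm (lam • v (ctr i)) p] at h6
  linarith

theorem phaseB (h : IsChain n v) {lam K : ℝ} {s : ℝ}
    (hl : 0 ≤ lam) (h0 : 0 ≤ s) (h1 : s ≤ 1) (hK0 : 0 < K)
    (hK : ∀ i < n, ∀ j < n, i / 2 ≠ j / 2 →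
      K + dist (v i) (v (i + 1)) + dist (v j) (v (j + 1)) ≤ lam * dist (v (ctr i)) (v (ctr j))) :
    IsPosition n v (evenCuts n) (posA n v lam s) (posB n v lam s) := by
  refine ⟨fun i hi => dist_posAB h hi lam h0 h1, ?_, ?_⟩
  · intro i hi hC
    rw [mem_evenCuts] at hC
    exact joint lam s (by omega)
  · intro i j hij hj
    by_cases hd : i / 2 = j / 2
    · have hj1 : j = i + 1 := by omega
      subst hj1
      have hi2 : i % 2 = 0 := by omega
      rw [if_pos ⟨rfl, fun hc => by rw [mem_evenCuts] at hc; omega⟩]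
      have e1 : v i - v (i + 1) ≠ 0 := sub_ne_zero.2 (h.1 i (by omega))
      have e2 : v (i + 2) - v (i + 1) ≠ 0 := sub_ne_zero.2 (h.1 (i + 1) hj).symm
      have hn1 := norm_dirn h (by omega : i < n) h0 h1
      have hn2 := norm_dirn h hj h0 h1
      have hne : dirn n v i s ≠ dirn n v (i + 1) s := by
        unfold dirn
        rw [if_pos hi2, if_pos hj, if_neg (by omega)]
        exact rot_ne_w (norm_nz e1) (norm_nz e2) (h.dir_ne hj) h0 h1
      have h3 := two_link (J := lam • v (i + 1)) hn1 hn2 hne (dist_nonneg (x := v i) (y := v (i + 1)))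
        (dist_nonneg (x := v (i + 1)) (y := v (i + 1 + 1)))
      have hA : posA n v lam s (i + 1) = lam • v (i + 1) := by
        unfold posA; rw [if_neg (by omega)]
      have hA' : posA n v lam s i = lam • v (i + 1) + dist (v i) (v (i + 1)) • dirn n v i s := by
        unfold posA; rw [if_pos hi2]
      have hB : posB n v lam s i = lam • v (i + 1) := by
        unfold posB; rw [if_pos hi2]
      have hB' : posB n v lam s (i + 1) =
          lam • v (i + 1) + dist (v (i + 1)) (v (i + 1 + 1)) • dirn n v (i + 1) s := by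
        unfold posB; rw [if_neg (by omega)]
      rw [hA, hA', hB, hB']
      exact h3
    · rw [if_neg]
      · rw [eq_empty_iff_forall_notMem]
        rintro z ⟨hz1, hz2⟩
        have := far h (by omega) hj hl h0 h1 (hK i (by omega) j hj hd) hz1 hz2
        rw [dist_self] at this
        linarith
      · rintro ⟨rfl, hC⟩
        apply hC
        rw [mem_evenCuts]; omega

theorem straight (h : IsChain n v) (lam : ℝ) :
    IsStraight n (evenCuts n) (posA n v lam 1) (posB n v lam 1) := by
  intro i hi hC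
  rw [mem_evenCuts] at hC
  have hi2 : i % 2 = 0 := by omega
  have e2 : v (i + 2) - v (i + 1) ≠ 0 := sub_ne_zero.2 (h.1 (i + 1) hi).symm
  have hA : posA n v lam 1 (i + 1) = lam • v (i + 1) := by
    unfold posA; rw [if_neg (by omega)]
  have hA' : posA n v lam 1 i = lam • v (i + 1) + dist (v i) (v (i + 1)) • dirn n v i 1 := by
    unfold posA; rw [if_pos hi2]
  have hB : posB n v lam 1 i = lam • v (i + 1) := by
    unfold posB; rw [if_pos hi2]
  have hB' : posB n v lam 1 (i + 1) =
      lam • v (i + 1) + dist (v (i + 1)) (v (i + 1 + 1)) • dirn n v (i + 1) 1 := by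
    unfold posB; rw [if_neg (by omega)]
  have hd1 : dirn n v i 1 = - nz (v (i + 2) - v (i + 1)) := by
    unfold dirn
    rw [if_pos hi2, if_pos hi, rot_one (norm_nz e2)]
  have hd2 : dirn n v (i + 1) 1 = nz (v (i + 2) - v (i + 1)) := by
    unfold dirn
    rw [if_neg (by omega)]
  rw [hA, hA', hB, hB', hd1, hd2]
  have : lam • v (i + 1) - (lam • v (i + 1) + dist (v i) (v (i + 1)) • -nz (v (i + 2) - v (i + 1)))
      = dist (v i) (v (i + 1)) • nz (v (i + 2) - v (i + 1)) := by
    rw [smul_neg]; abel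
  rw [this, add_sub_cancel_left]
  exact ((SameRay.refl _).nonneg_smul_left dist_nonneg).nonneg_smul_right dist_nonneg

theorem exists_lam (h : IsChain n v) (K : ℝ) : ∃ lam : ℝ, 1 < lam ∧ ∀ i < n, ∀ j < n, i / 2 ≠ j / 2 →
      K + dist (v i) (v (i + 1)) + dist (v j) (v (j + 1)) ≤ lam * dist (v (ctr i)) (v (ctr j)) := by
  have h1 : ∀ i ∈ Finset.range n, ∀ j ∈ Finset.range n, i / 2 ≠ j / 2 → ∀ᶠ lam : ℝ in atTop,
      K + dist (v i) (v (i + 1)) + dist (v j) (v (j + 1)) ≤ lam * dist (v (ctr i)) (v (ctr j)) := by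
    intro i hi j hj hd
    rw [Finset.mem_range] at hi hj
    have hpos : 0 < dist (v (ctr i)) (v (ctr j)) := by
      apply _root_.dist_pos.2
      unfold ctr
      rcases Nat.lt_or_ge (i / 2) (j / 2) with hlt | hge
      · exact h.inj (by omega) (by omega)
      · exact (h.inj (by omega) (by omega)).symm
    exact (tendsto_id.atTop_mul_const hpos).eventually_ge_atTop _
  have h2 : ∀ᶠ lam : ℝ in atTop, ∀ i ∈ Finset.range n, ∀ j ∈ Finset.range n, i / 2 ≠ j / 2 →
      K + dist (v i) (v (i + 1)) + dist (v j) (v (j + 1)) ≤ lam * dist (v (ctr i)) (v (ctr j)) := by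
    rw [Filter.eventually_all_finset]
    intro i hi
    rw [Filter.eventually_all_finset]
    intro j hj
    rw [Filter.eventually_imp_distrib_left]
    exact h1 i hi j hj
  obtain ⟨lam, h3, h4⟩ := (h2.and (eventually_gt_atTop 1)).exists
  exact ⟨lam, h4, fun i hi j hj => h3 i (Finset.mem_range.2 hi) j (Finset.mem_range.2 hj)⟩

/-- **Upper bound**: every chain unlocks after cutting it at every second vertex. -/
theorem unlocks_evenCuts (h : IsChain n v) : Unlocks n v (evenCuts n) := by
  intro d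
  obtain ⟨lam, hlam, hK⟩ := exists_lam h (max d 1)
  have hK0 : 0 < max d 1 := lt_max_of_lt_right one_pos
  set L : ℝ → ℝ := fun t => 1 + min (2 * t) 1 * (lam - 1) with hL
  set S : ℝ → ℝ := fun t => max (2 * t - 1) 0 with hS
  have cL : Continuous L := by fun_prop
  have cS : Continuous S := by fun_prop
  have hS01 : MapsTo S (Icc 0 1) (Icc 0 1) := by
    intro t ht
    exact ⟨le_max_right _ _, max_le (by linarith [ht.2]) zero_le_one⟩
  have cD : ∀ i < n, ContinuousOn (fun t => dirn n v i (S t)) (Icc 0 1) := fun i hi =>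
    (continuousOn_dirn h hi).comp cS.continuousOn hS01
  refine ⟨fun t => posA n v (L t) (S t), fun t => posB n v (L t) (S t), ?_, ?_, ?_, ?_, ?_, ?_⟩
  · intro i hi
    by_cases h2 : i % 2 = 0
    · simp only [posA, h2, if_true]
      exact (cL.smul continuous_const).continuousOn.add ((cD i hi).fun_const_smul _)
    · simp only [posA, h2, if_false]
      exact (cL.smul continuous_const).continuousOn
  · intro i hi
    by_cases h2 : i % 2 = 0
    · simp only [posB, h2, if_true]
      exact (cL.smul continuous_const).continuousOn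
    · simp only [posB, h2, if_false]
      exact (cL.smul continuous_const).continuousOn.add ((cD i hi).fun_const_smul _)
  · intro i hi
    have hL0 : L 0 = 1 := by simp [hL]
    have hS0 : S 0 = 0 := by simp [hS]
    simp only [hL0, hS0]
    unfold posA posB
    split_ifs with h2
    · rw [smul_dirn_zero_even h hi h2]; simp
    · rw [smul_dirn_odd h hi h2]; simp
  · intro t ht
    rcases le_total t (1/2) with ht2 | ht2
    · have hSt : S t = 0 := by simp only [hS]; exact max_eq_right (by linarith)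
      have hLt : 1 < L t := by
        simp only [hL]
        have : 0 < min (2 * t) 1 := lt_min (by linarith [ht.1]) one_pos
        nlinarith
      simp only [hSt]
      exact phaseA h hLt
    · have hLt : L t = lam := by
        simp only [hL]; rw [min_eq_right (by linarith)]; ring
      have hSt := hS01 ⟨ht.1.le, ht.2⟩
      simp only [hLt]
      exact phaseB h (by linarith) hSt.1 hSt.2 hK0 hK
  · have hS1 : S 1 = 1 := by simp [hS]; norm_num
    simp only [hS1]
    exact straight h _
  · have hS1 : S 1 = 1 := by simp [hS]; norm_num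
    have hL1 : L 1 = lam := by simp only [hL]; rw [min_eq_right (by norm_num)]; ring
    simp only [hS1, hL1]
    rintro i j hij hj ⟨c, hc, hc1, hc2⟩ p hp q hq
    rw [mem_evenCuts] at hc
    have := far h (by omega) hj (by linarith) zero_le_one le_rfl
      (hK i (by omega) j hj (by omega)) hp hq
    exact (le_max_left _ _).trans this

theorem unlockable_half (n : ℕ) : Unlockable n ((n - 1) / 2) := by
  intro v hv
  exact ⟨evenCuts n, fun c hc => (mem_evenCuts.1 hc).2, card_evenCuts n, unlocks_evenCuts hv⟩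

theorem cutNumber_le (n : ℕ) : cutNumber n ≤ (n - 1) / 2 := Nat.sInf_le (unlockable_half n)

end UnlockChains
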